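import Mathlib
import Pool.Agent.Lib.helper22.StarB

set_option autoImplicit false

namespace Pool.Agent.Results.MP_0c0609_co.Full

open Finset Pool.Agent.Lib.H22Star

lemma arith (t : ℕ) (A : Fin 5 → Bool) (gx gy : Fin 5 → ℕ)
    (h : ∀ i, A i = false → 2 * (gx i + gy i) ≤ ![3 * t, 3 * t, 2 * t, 2 * t, 2 * t] i + 1)
    (H : ∀ S : Fin 5 → Bool,
      6 * t + 3 < ∑ i, (if A i then (if S i then ![3 * t, 3 * t, 2 * t, 2 * t, 2 * t] i else 1)
        else gx i) ∨
      6 * t + 3 < ∑ i, (if A i then (if S i then 1 else ![3 * t, 3 * t, 2 * t, 2 * t, 2 * t] i)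
        else gy i)) (ht : 1 ≤ t) : False := by
  have h0 := h 0
  have h1 := h 1
  have h2 := h 2
  have h3 := h 3
  have h4 := h 4
  have s1 := H ![false, false, false, true, true]
  have s2 := H ![false, false, true, true, true]
  have s3 := H ![false, true, false, false, true]
  have s4 := H ![false, true, true, false, false]
  have s5 := H ![true, false, false, true, false]
  simp only [Fin.sum_univ_five] at s1 s2 s3 s4 s5
  clear h H
  generalize A 0 = a0 at *
  generalize A 1 = a1 at *
  generalize A 2 = a2 at *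
  generalize A 3 = a3 at *
  generalize A 4 = a4 at *
  cases a0 <;> cases a1 <;> cases a2 <;> cases a3 <;> cases a4 <;>
    simp at h0 h1 h2 h3 h4 s1 s2 s3 s4 s5 <;> omega

def mm (e t : ℕ) : Fin (5 + e) → ℕ :=
  Fin.append ![3 * t, 3 * t, 2 * t, 2 * t, 2 * t] (fun _ => 1)

lemma mm_pos (e t : ℕ) (ht : 1 ≤ t) (i : Fin (5 + e)) : 1 ≤ mm e t i := by
  refine Fin.addCases (fun j => ?_) (fun j => ?_) i
  · rw [mm, Fin.append_left]
    fin_cases j <;> simp <;> omega
  · rw [mm, Fin.append_right]

lemma mm_sum (e t : ℕ) : ∑ i, (mm e t i + 1) = 12 * t + 5 + 2 * e := by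
  rw [Fin.sum_univ_add]
  simp only [mm, Fin.append_left, Fin.append_right, Fin.sum_univ_five]
  simp
  ring

lemma choosable (e t : ℕ) (ht : 1 ≤ t) : EqChoosable 2 (stars (mm e t)) := by
  refine reduce _ fun T P hP => ?_
  by_contra hn
  push Not at hn
  rw [mm_sum, (by omega : (12 * t + 5 + 2 * e + 1) / 2 = 6 * t + 3 + e)] at hn
  obtain ⟨A, gx, gy, h1, h2⟩ := two_col (mm e t) (mm_pos e t ht) T P hP (6 * t + 3 + e)
    (by rw [mm_sum]; omega) hn
  refine arith t (fun i => A (Fin.castAdd e i)) (fun i => gx (Fin.castAdd e i))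
    (fun i => gy (Fin.castAdd e i)) (fun i hi => ?_) (fun S => ?_) ht
  · have := h1 _ hi
    rwa [mm, Fin.append_left] at this
  · have b : ∀ j : Fin e, A (Fin.natAdd 5 j) = false →
        gx (Fin.natAdd 5 j) ≤ 1 ∧ gy (Fin.natAdd 5 j) ≤ 1 := by
      intro j hj
      have := h1 _ hj
      rw [mm, Fin.append_right] at this
      omega
    rcases h2 (Fin.append S fun _ => true) with h | h
    · left
      rw [Fin.sum_univ_add] at h
      simp only [mm, Fin.append_left, Fin.append_right] at h
      have := sum_le (fun j : Fin e => if A (Fin.natAdd 5 j) then (if True then 1 else 1)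
        else gx (Fin.natAdd 5 j)) (fun j => by
          cases hj : A (Fin.natAdd 5 j)
          · simpa using (b j hj).1
          · simp)
      omega
    · right
      rw [Fin.sum_univ_add] at h
      simp only [mm, Fin.append_left, Fin.append_right] at h
      have := sum_le (fun j : Fin e => if A (Fin.natAdd 5 j) then (if True then 1 else 1)
        else gy (Fin.natAdd 5 j)) (fun j => by
          cases hj : A (Fin.natAdd 5 j)
          · simpa using (b j hj).2
          · simp)
      omega

lemma inf5 (n : ℕ) (hn : 5 ≤ n) :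
    {s : Multiset ℕ | ∃ m : Fin n → ℕ, (∀ i, 1 ≤ m i) ∧ s = Multiset.map m Finset.univ.val ∧
      EqChoosable 2 (stars m)}.Infinite := by
  obtain ⟨e, rfl⟩ := Nat.exists_eq_add_of_le hn
  refine Set.infinite_of_injective_forall_mem
    (f := fun t : ℕ => Multiset.map (mm e (t + 1)) Finset.univ.val) ?_
    fun t => ⟨_, mm_pos e _ (by omega), rfl, choosable e _ (by omega)⟩
  intro t t' h
  have h1 := congrArg (fun s : Multiset ℕ => (s.map (· + 1)).sum) h
  simp only [Multiset.map_map, Function.comp] at h1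
  have a := mm_sum e (t + 1)
  have b := mm_sum e (t' + 1)
  rw [Finset.sum] at a b
  omega

lemma fin_of {n : ℕ} (h : ∀ m : Fin n → ℕ, EqChoosable 2 (stars m) → ∀ i, m i ≤ 200) :
    {s : Multiset ℕ | ∃ m : Fin n → ℕ, (∀ i, 1 ≤ m i) ∧ s = Multiset.map m Finset.univ.val ∧
      EqChoosable 2 (stars m)}.Finite := by
  refine ((Set.finite_Iic (fun _ : Fin n => 200)).image
    (fun m : Fin n → ℕ => Multiset.map m Finset.univ.val)).subset ?_
  rintro s ⟨m, -, rfl, hm⟩
  exact ⟨m, fun i => h m hm i, rfl⟩

theorem result (n : ℕ) (hn : 2 ≤ n) :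
    {s : Multiset ℕ | ∃ m : Fin n → ℕ, (∀ i, 1 ≤ m i) ∧ s = Multiset.map m Finset.univ.val ∧
      EqChoosable 2 (stars m)}.Finite ↔ n ≤ 4 := by
  constructor
  · intro h
    by_contra h5
    exact inf5 n (by omega) h
  · intro h
    interval_cases n
    · exact fin_of bound2
    · exact fin_of bound3
    · exact fin_of bound4

end Pool.Agent.Results.MP_0c0609_co.Full
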